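import Mathlib
import Pool.Agent.Helper65.SL.Base

/-! Module LPS of project SL: the scalar curvature of the conformally changed slice. -/

set_option autoImplicit false
set_option maxSynthPendingDepth 3
set_option linter.unusedSectionVars false
set_option linter.deprecated false
set_option linter.unusedVariables false

namespace Pool.Agent.Helper48.SL

open Filter Topology
open scoped ContDiff Manifold
open Pool.Agent.Helper65.SL Pool.Agent.Helper23.Ric

variable {V W : Type*} [NormedAddCommGroup V] [NormedSpace ℝ V] [FiniteDimensional ℝ V]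
  [NormedAddCommGroup W] [NormedSpace ℝ W] [FiniteDimensional ℝ W]

variable {G : V × W → (V × W) →L[ℝ] (V × W) →L[ℝ] ℝ} {w₀ : V} {z₀ : W}

theorem sig_freeze (b : Module.Basis (Fin 2) ℝ V) : sig b (freeze G w₀) w₀ = sig b G w₀ := by
  funext z
  rw [sig, sig, blockV_freeze]

theorem aLin_freeze (v : W) : aLin (freeze G w₀) w₀ z₀ v = aLin G w₀ z₀ v := by
  unfold aLin
  rw [ell_freeze, blockW_freeze]

/-- the bound for the trace of the mixed part of the curvature -/
theorem split_block_le (b : Module.Basis (Fin 2) ℝ V) (h : SplitAt G w₀ z₀) (v : W) :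
    LinearMap.trace ℝ V (aLin G w₀ z₀ v) + ricci (blockW G w₀) z₀ v v ≤
      ricci (blockW G w₀) z₀ v v
      - hess (sig b G w₀) (blockW G w₀) z₀ v v - (1 / 2) * (fderiv ℝ (sig b G w₀) z₀ v) ^ 2 := by
  have h1 := ricci_block_le b h.freeze v
  rw [h.freeze.ricci_eq, blockW_freeze, sig_freeze, aLin_freeze] at h1
  exact h1

theorem lps {m : ℕ} (hm : 2 ≤ m) (hdim : m = Module.finrank ℝ W) (b : Module.Basis (Fin 2) ℝ V)
    (h : SplitAt G w₀ z₀)
    (hpos : ∀ e : Fin m → W, IsOrtho (blockW G w₀ z₀) e →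
      0 < ∑ i, (LinearMap.trace ℝ V (aLin G w₀ z₀ (e i)) + ricci (blockW G w₀) z₀ (e i) (e i)))
    (e : Fin m → W) (he : IsOrtho (conf (phi m b G w₀) (blockW G w₀) z₀) e) :
    0 < ∑ i, ricci (conf (phi m b G w₀) (blockW G w₀)) z₀ (e i) (e i) := by
  have hm1 : (0 : ℝ) < (m : ℝ) - 1 := by
    have : (2 : ℝ) ≤ m := by exact_mod_cast hm
    linarith
  have hsig : ContDiffAt ℝ 2 (sig b G w₀) z₀ := by
    have := contDiffAt_sig b h.freeze h.freeze.goodV.1
    rwa [sig_freeze] at this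
  have hphi : ContDiffAt ℝ 2 (phi m b G w₀) z₀ := contDiffAt_const.mul hsig
  set φ := phi m b G w₀ with hφ
  set H := blockW G w₀ with hH
  have hgood : GoodAt H z₀ := h.goodW
  -- relation between `σ` and `φ`
  have hsf : sig b G w₀ = fun z => (2 * ((m : ℝ) - 1)) * φ z := by
    funext z
    rw [hφ, phi]
    field_simp
  have hd1 : ∀ y, ContDiffAt ℝ 2 φ y → fderiv ℝ (sig b G w₀) y = (2 * ((m : ℝ) - 1)) • fderiv ℝ φ y := by
    intro y hy
    rw [hsf]
    exact fderiv_const_mul (hy.differentiableAt (by simp)) _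
  have hd2 : fderiv ℝ (fderiv ℝ (sig b G w₀)) z₀ =
      (2 * ((m : ℝ) - 1)) • fderiv ℝ (fderiv ℝ φ) z₀ := by
    have e1 : fderiv ℝ (sig b G w₀) =ᶠ[𝓝 z₀] fun y => (2 * ((m : ℝ) - 1)) • fderiv ℝ φ y := by
      filter_upwards [eventually_contDiff2 hphi] with y hy
      exact hd1 y hy
    rw [e1.fderiv_eq]
    exact fderiv_fun_const_smul (differentiableAt_fderiv hphi) _
  have hhess : ∀ v, hess (sig b G w₀) H z₀ v v = (2 * ((m : ℝ) - 1)) * hess φ H z₀ v v := by
    intro v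
    simp only [hess, hd1 z₀ hphi, hd2, ContinuousLinearMap.smul_apply, smul_eq_mul]
    ring
  -- rescaled frame
  set s := Real.exp (φ z₀) with hs
  have hspos : 0 < s := Real.exp_pos _
  have hs2 : Real.exp (2 * φ z₀) = s ^ 2 := by
    rw [hs, ← Real.exp_nat_mul]; norm_num
  set e' : Fin m → W := fun i => s • e i with he'
  have hoH : IsOrtho (H z₀) e' := by
    intro i j
    have := he i j
    simp only [conf, ContinuousLinearMap.smul_apply, smul_eq_mul, hs2] at this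
    simp only [he', map_smul, ContinuousLinearMap.smul_apply, smul_eq_mul]
    rw [← this]
    ring
  have hpos := hpos _ hoH
  -- bound
  have hbound : ∑ i, (LinearMap.trace ℝ V (aLin G w₀ z₀ (e' i)) + ricci H z₀ (e' i) (e' i)) ≤
      ∑ i, (ricci H z₀ (e' i) (e' i) - (2 * ((m : ℝ) - 1)) * hess φ H z₀ (e' i) (e' i)
        - (1 / 2) * ((2 * ((m : ℝ) - 1)) * fderiv ℝ φ z₀ (e' i)) ^ 2) := by
    refine Finset.sum_le_sum fun i _ => ?_
    have := split_block_le b h (e' i)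
    rw [← hH, hhess, hd1 z₀ hphi] at this
    simpa only [ContinuousLinearMap.smul_apply, smul_eq_mul] using this
  -- trace identities
  have htr : LinearMap.trace ℝ W (dgrad φ H z₀) = ∑ i, hess φ H z₀ (e' i) (e' i) := by
    rw [trace_ortho hoH hdim]
    exact Finset.sum_congr rfl fun i _ => dgrad_spec hgood hphi _ _
  have hgr : fderiv ℝ φ z₀ (grad φ H z₀) = ∑ i, fderiv ℝ φ z₀ (e' i) ^ 2 := by
    have h1 : LinearMap.trace ℝ W ((fderiv ℝ φ z₀ : W →ₗ[ℝ] ℝ).smulRight (grad φ H z₀)) =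
        fderiv ℝ φ z₀ (grad φ H z₀) := by rw [LinearMap.trace_smulRight]; rfl
    rw [← h1, trace_ortho hoH hdim]
    refine Finset.sum_congr rfl fun i _ => ?_
    simp only [LinearMap.smulRight_apply, map_smul, ContinuousLinearMap.smul_apply, smul_eq_mul,
      grad_spec hgood, ContinuousLinearMap.coe_coe]
    ring
  have hc : ∀ i, ricci (conf φ H) z₀ (e' i) (e' i) = ricci H z₀ (e' i) (e' i)
      - ((m : ℝ) - 2) * (hess φ H z₀ (e' i) (e' i) - fderiv ℝ φ z₀ (e' i) ^ 2)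
      - (∑ i, hess φ H z₀ (e' i) (e' i)
        + ((m : ℝ) - 2) * ∑ i, fderiv ℝ φ z₀ (e' i) ^ 2) := by
    intro i
    rw [ricci_conf hgood hphi, htr, hgr, ← hdim, hoH i i, if_pos rfl, mul_one]
  have hscale : ∀ i, ricci (conf φ H) z₀ (e' i) (e' i) =
      s ^ 2 * ricci (conf φ H) z₀ (e i) (e i) := by
    intro i
    exact ricci_smul (conf_good hgood hphi) s (e i)
  have hfinal : s ^ 2 * ∑ i, ricci (conf φ H) z₀ (e i) (e i) =
      ∑ i, ricci H z₀ (e' i) (e' i)
        - 2 * ((m : ℝ) - 1) * ∑ i, hess φ H z₀ (e' i) (e' i)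
        - ((m : ℝ) - 1) * ((m : ℝ) - 2) * ∑ i, fderiv ℝ φ z₀ (e' i) ^ 2 := by
    rw [Finset.mul_sum]
    simp only [← hscale, hc, Finset.sum_sub_distrib, Finset.sum_const, Finset.card_univ,
      Fintype.card_fin, ← Finset.mul_sum, nsmul_eq_mul]
    ring
  have hlow : 0 < ∑ i, ricci H z₀ (e' i) (e' i)
        - 2 * ((m : ℝ) - 1) * ∑ i, hess φ H z₀ (e' i) (e' i)
        - 2 * ((m : ℝ) - 1) ^ 2 * ∑ i, fderiv ℝ φ z₀ (e' i) ^ 2 := by
    refine lt_of_lt_of_le (lt_of_lt_of_le hpos hbound) (le_of_eq ?_)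
    simp only [Finset.sum_sub_distrib, ← Finset.mul_sum, mul_pow]
    ring
  have hnn : 0 ≤ ∑ i, fderiv ℝ φ z₀ (e' i) ^ 2 := Finset.sum_nonneg fun i _ => sq_nonneg _
  have hle : ((m : ℝ) - 1) * ((m : ℝ) - 2) * ∑ i, fderiv ℝ φ z₀ (e' i) ^ 2 ≤
      2 * ((m : ℝ) - 1) ^ 2 * ∑ i, fderiv ℝ φ z₀ (e' i) ^ 2 := by
    apply mul_le_mul_of_nonneg_right _ hnn
    nlinarith
  have : 0 < s ^ 2 * ∑ i, ricci (conf φ H) z₀ (e i) (e i) := by
    rw [hfinal]; linarith
  exact (pos_iff_pos_of_mul_pos this).1 (by positivity)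

end Pool.Agent.Helper48.SL
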