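import Pool.Agent.Helper53.SL.St

/-!
MODULE LTW of project SL (MP_9062f4_nt, owner helper53).
-/

set_option autoImplicit false

open Polynomial Filter Topology MeasureTheory Set
open Pool.Agent.Helper96.Salem
open Pool.Agent.Helper53.SL

noncomputable section

namespace Pool.Agent.Helper48.SL

theorem sum_odd_en (n : ℕ) : ∑ m ∈ Finset.range n, (2 * (m : ENNReal) + 1) = (n : ENNReal) ^ 2 := by
  have h : ∀ n : ℕ, ∑ m ∈ Finset.range n, (2 * m + 1) = n ^ 2 := by
    intro n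
    induction n with
    | zero => simp
    | succ n ih => rw [Finset.sum_range_succ, ih]; ring
  exact_mod_cast h n

theorem lm_layer2 {N : ℕ} (hN : 1 ≤ N) {x : ℝ} (hx : 0 ≤ x) :
    ENNReal.ofReal (lm x ^ 2) ≤
      (N : ENNReal) ^ 2 * ∑' m : ℕ, (2 * (m : ENNReal) + 1) *
        (if x ≤ Real.exp (-(m : ℝ)) ^ N then 1 else 0) := by
  by_cases hl : -Real.log x ≤ 0
  · have h0 : lm x = 0 := by rw [lm, max_eq_right hl]
    rw [h0]
    simp
  · push Not at hl
    have hx0 : 0 < x := by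
      rcases hx.lt_or_eq with h | h
      · exact h
      · rw [← h, Real.log_zero] at hl; linarith
    have hN' : (0 : ℝ) < N := by exact_mod_cast hN
    set y : ℝ := -Real.log x / N with hy
    have hy0 : 0 ≤ y := by positivity
    have h1 : ∀ m ∈ Finset.range (⌊y⌋₊ + 1),
        (2 * (m : ENNReal) + 1) * (if x ≤ Real.exp (-(m : ℝ)) ^ N then (1 : ENNReal) else 0)
          = 2 * (m : ENNReal) + 1 := by
      intro m hm
      rw [Finset.mem_range, Nat.lt_succ_iff] at hm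
      have h2 : (m : ℝ) ≤ y := (Nat.cast_le.2 hm).trans (Nat.floor_le hy0)
      rw [if_pos, mul_one]
      rw [← Real.exp_nat_mul, ← Real.log_le_iff_le_exp hx0]
      have h3 : (m : ℝ) * N ≤ -Real.log x := by
        rw [hy, le_div_iff₀ hN'] at h2; exact h2
      linarith
    have h4 : ((⌊y⌋₊ + 1 : ℕ) : ENNReal) ^ 2 ≤
        ∑' m : ℕ, (2 * (m : ENNReal) + 1) *
          (if x ≤ Real.exp (-(m : ℝ)) ^ N then (1 : ENNReal) else 0) := by
      calc ((⌊y⌋₊ + 1 : ℕ) : ENNReal) ^ 2 = ∑ m ∈ Finset.range (⌊y⌋₊ + 1),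
            (2 * (m : ENNReal) + 1) *
              (if x ≤ Real.exp (-(m : ℝ)) ^ N then (1 : ENNReal) else 0) := by
            rw [Finset.sum_congr rfl h1, sum_odd_en]
        _ ≤ _ := ENNReal.sum_le_tsum _
    refine le_trans ?_ (mul_le_mul_right h4 _)
    have h0 : lm x = -Real.log x := by rw [lm, max_eq_left hl.le]
    rw [h0]
    have h5 : -Real.log x ≤ N * ((⌊y⌋₊ + 1 : ℕ) : ℝ) := by
      have h6 : y ≤ ((⌊y⌋₊ + 1 : ℕ) : ℝ) := by
        push_cast
        exact (Nat.lt_floor_add_one y).le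
      have h7 : -Real.log x = N * y := by rw [hy]; field_simp
      rw [h7]
      exact mul_le_mul_of_nonneg_left h6 hN'.le
    have h8 : (-Real.log x) ^ 2 ≤ (N * ((⌊y⌋₊ + 1 : ℕ) : ℝ)) ^ 2 :=
      pow_le_pow_left₀ hl.le h5 2
    refine (ENNReal.ofReal_le_ofReal h8).trans (le_of_eq ?_)
    rw [mul_pow, ENNReal.ofReal_mul (by positivity), ENNReal.ofReal_pow hN'.le,
      ENNReal.ofReal_pow (Nat.cast_nonneg _), ENNReal.ofReal_natCast, ENNReal.ofReal_natCast]

theorem layer_int2 {f : ℝ → ℂ} (hf : Measurable f)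
    (S : Set ℝ) {N : ℕ} (hN : 1 ≤ N) :
    ∫⁻ t in S, ENNReal.ofReal (lm ‖f t‖ ^ 2) ≤
      (N : ENNReal) ^ 2 * ∑' m : ℕ, (2 * (m : ENNReal) + 1) *
        volume ({t | ‖f t‖ ≤ Real.exp (-(m : ℝ)) ^ N} ∩ S) := by
  have hms : ∀ m : ℕ, MeasurableSet {t | ‖f t‖ ≤ Real.exp (-(m : ℝ)) ^ N} := fun m =>
    measurableSet_le hf.norm measurable_const
  have h1 : ∀ t, ENNReal.ofReal (lm ‖f t‖ ^ 2) ≤ (N : ENNReal) ^ 2 * ∑' m : ℕ,
      (2 * (m : ENNReal) + 1) *
        {t | ‖f t‖ ≤ Real.exp (-(m : ℝ)) ^ N}.indicator (fun _ => (1 : ENNReal)) t := by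
    intro t
    refine (lm_layer2 hN (norm_nonneg (f t))).trans (le_of_eq ?_)
    congr 1
  have hmi : ∀ m : ℕ, Measurable
      ({t | ‖f t‖ ≤ Real.exp (-(m : ℝ)) ^ N}.indicator (fun _ : ℝ => (1 : ENNReal))) :=
    fun m => measurable_const.indicator (hms m)
  have hmi2 : ∀ m : ℕ, Measurable (fun t => (2 * (m : ENNReal) + 1) *
      {t | ‖f t‖ ≤ Real.exp (-(m : ℝ)) ^ N}.indicator (fun _ => (1 : ENNReal)) t) :=
    fun m => (hmi m).const_mul _
  refine (lintegral_mono h1).trans (le_of_eq ?_)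
  rw [lintegral_const_mul _ (Measurable.ennreal_tsum hmi2),
    lintegral_tsum fun m => (hmi2 m).aemeasurable]
  congr 1
  refine tsum_congr fun m => ?_
  rw [lintegral_const_mul _ (hmi m), lintegral_indicator (hms m), lintegral_const, one_mul,
    Measure.restrict_apply MeasurableSet.univ, univ_inter, Measure.restrict_apply (hms m)]

theorem geo2_summable (D : ℝ) :
    Summable fun m : ℕ => (2 * (m : ℝ) + 1) * (D * Real.exp (-(m : ℝ))) := by
  have h1 := Real.summable_pow_mul_exp_neg_nat_mul 1 one_pos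
  have h0 := Real.summable_pow_mul_exp_neg_nat_mul 0 one_pos
  have h2 := (h1.mul_left (2 * D)).add (h0.mul_left D)
  refine h2.congr fun m => ?_
  simp only [pow_one, pow_zero, neg_mul, one_mul]
  ring

theorem hLtw : StLtw := by
  intro k
  obtain ⟨C, hC, N, hN, h⟩ := SV k
  have hpi := two_pi_pos
  have hD : 0 ≤ C * (2 * Real.pi) := by positivity
  have hnn : ∀ m : ℕ, 0 ≤ (2 * (m : ℝ) + 1) * (C * (2 * Real.pi) * Real.exp (-(m : ℝ))) :=
    fun m => by positivity
  refine ⟨(N : ℝ) ^ 2 * ∑' m : ℕ, (2 * (m : ℝ) + 1) * (C * (2 * Real.pi) * Real.exp (-(m : ℝ))),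
    mul_nonneg (by positivity) (tsum_nonneg hnn), ?_⟩
  intro G hk j hj
  refine (layer_int2 (eval_circle_measurable G) (Ico 0 (2 * Real.pi)) hN).trans ?_
  rw [ENNReal.ofReal_mul (by positivity), ENNReal.ofReal_pow (Nat.cast_nonneg N),
    ENNReal.ofReal_natCast,
    ENNReal.ofReal_tsum_of_nonneg hnn (geo2_summable _)]
  refine mul_le_mul_right (ENNReal.tsum_le_tsum fun m => ?_) _
  have h2 := global_SV h hk hj (δ := Real.exp (-(m : ℝ))) (Real.exp_pos _) (by
    rw [Real.exp_le_one_iff]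
    have : (0 : ℝ) ≤ m := Nat.cast_nonneg m
    linarith)
  have h3 : ENNReal.ofReal (2 * (m : ℝ) + 1) = 2 * (m : ENNReal) + 1 := by
    rw [show (2 * (m : ℝ) + 1) = ((2 * m + 1 : ℕ) : ℝ) by push_cast; ring,
      ENNReal.ofReal_natCast]
    push_cast
    ring
  rw [ENNReal.ofReal_mul (by positivity), h3]
  refine mul_le_mul_right ((measure_mono ?_).trans h2) _
  rintro t ⟨ht1, ht2⟩
  exact ⟨Ico_subset_Icc_self ht2, ht1⟩

end Pool.Agent.Helper48.SL
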